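import Mathlib

/-!
# An Eberlein compact space that is not superadic

We construct a weakly compact subset `K` of a Hilbert space that is not a continuous image of
any supercompact space.  `K` is the closed subspace of the product of three one-point
compactifications `A(X) × A(Y) × A(Z)` (`X` uncountable, `Y = ℕ`, `Z` the power set of `X × Y`)
obtained by deleting the isolated points `(x, y, z)` with `(x, y) ∉ z`.
-/

open Set Filter Topology

namespace Pool.Agent.Results.MP_0256c3_gt.NotSuperadic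

universe u

/-- `P` is a closed subbase: a family of closed sets such that every closed set is an
intersection of finite unions of members of `P`. -/
def IsClosedSubbase {X : Type u} [TopologicalSpace X] (P : Set (Set X)) : Prop :=
  (∀ A ∈ P, IsClosed A) ∧
    ∀ C : Set X, IsClosed C →
      ∃ 𝓕 : Set (Set (Set X)), (∀ F ∈ 𝓕, F.Finite ∧ F ⊆ P) ∧ C = ⋂ F ∈ 𝓕, ⋃₀ F

/-- `P` is binary: every linked subfamily has nonempty intersection. -/
def IsBinary {X : Type u} (P : Set (Set X)) : Prop :=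
  ∀ L : Set (Set X), L ⊆ P → (∀ A ∈ L, ∀ B ∈ L, (A ∩ B).Nonempty) → (⋂₀ L).Nonempty

/-- A space is supercompact if it has a binary closed subbase. -/
def IsSupercompact (X : Type u) [TopologicalSpace X] : Prop :=
  ∃ P : Set (Set X), IsClosedSubbase P ∧ IsBinary P

/-- `K` is superadic if it is a continuous image of a supercompact Hausdorff space
(taken in the universe `u`). -/
def IsSuperadic (K : Type) [TopologicalSpace K] : Prop :=
  ∃ (S : Type u) (_ : TopologicalSpace S),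
    T2Space S ∧ IsSupercompact S ∧ ∃ f : S → K, Continuous f ∧ Function.Surjective f

/-- `K` is Eberlein compact if it is homeomorphic to a subset of a Banach space that is compact
in the weak topology (the subset carries the weak topology). -/
def IsEberleinCompact (K : Type) [TopologicalSpace K] : Prop :=
  ∃ (E : Type) (_ : NormedAddCommGroup E) (_ : NormedSpace ℝ E),
    CompleteSpace E ∧ ∃ A : Set (WeakSpace ℝ E), IsCompact A ∧ Nonempty (K ≃ₜ A)

section supercompact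

variable {S : Type u} [TopologicalSpace S] {P : Set (Set S)}

theorem compactSpace_of_binary (hP : IsClosedSubbase P) (hB : IsBinary P) : CompactSpace S := by
  refine ⟨isCompact_iff_ultrafilter_le_nhds.2 fun f _ => ?_⟩
  obtain ⟨x, hx⟩ := hB {A | A ∈ P ∧ A ∈ f} (fun A hA => hA.1)
    (fun A hA B hB => f.nonempty_of_mem (inter_mem hA.2 hB.2))
  refine ⟨x, mem_univ _, fun V hV => ?_⟩
  obtain ⟨W, hWV, hW, hxW⟩ := mem_nhds_iff.1 hV
  refine mem_of_superset ?_ hWV
  obtain ⟨𝓕, h𝓕, hC⟩ := hP.2 Wᶜ hW.isClosed_compl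
  by_contra hWf
  have hc : Wᶜ ∈ f := Ultrafilter.compl_mem_iff_notMem.2 hWf
  have : x ∈ Wᶜ := by
    rw [hC]
    refine mem_iInter₂.2 fun F hF => ?_
    have hU : ⋃₀ F ∈ f := by
      refine mem_of_superset hc ?_
      rw [hC]
      exact biInter_subset_of_mem hF
    obtain ⟨A, hAF, hA⟩ := (Ultrafilter.finite_sUnion_mem_iff (h𝓕 F hF).1).1 hU
    exact ⟨A, hAF, hx A ⟨(h𝓕 F hF).2 hAF, hA⟩⟩
  exact this hxW

/-- Intersections of subfamilies of `P`. -/
def Conv (P : Set (Set S)) (Q : Set S) : Prop := ∃ L : Set (Set S), L ⊆ P ∧ Q = ⋂₀ L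

omit [TopologicalSpace S] in
theorem helly_three (hB : IsBinary P) {Q₁ Q₂ Q₃ : Set S} (h₁ : Conv P Q₁) (h₂ : Conv P Q₂)
    (h₃ : Conv P Q₃) (h₁₂ : (Q₁ ∩ Q₂).Nonempty) (h₁₃ : (Q₁ ∩ Q₃).Nonempty)
    (h₂₃ : (Q₂ ∩ Q₃).Nonempty) : (Q₁ ∩ Q₂ ∩ Q₃).Nonempty := by
  obtain ⟨L₁, hL₁, rfl⟩ := h₁
  obtain ⟨L₂, hL₂, rfl⟩ := h₂
  obtain ⟨L₃, hL₃, rfl⟩ := h₃
  obtain ⟨a, ha₁, ha₂⟩ := h₁₂
  obtain ⟨b, hb₁, hb₃⟩ := h₁₃
  obtain ⟨c, hc₂, hc₃⟩ := h₂₃
  rw [← sInter_union, ← sInter_union]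
  refine hB _ (union_subset (union_subset hL₁ hL₂) hL₃) ?_
  rintro A ((hA | hA) | hA) B ((hB | hB) | hB)
  · exact ⟨a, ha₁ A hA, ha₁ B hB⟩
  · exact ⟨a, ha₁ A hA, ha₂ B hB⟩
  · exact ⟨b, hb₁ A hA, hb₃ B hB⟩
  · exact ⟨a, ha₂ A hA, ha₁ B hB⟩
  · exact ⟨a, ha₂ A hA, ha₂ B hB⟩
  · exact ⟨c, hc₂ A hA, hc₃ B hB⟩
  · exact ⟨b, hb₃ A hA, hb₁ B hB⟩
  · exact ⟨c, hc₃ A hA, hc₂ B hB⟩
  · exact ⟨b, hb₃ A hA, hb₃ B hB⟩

theorem clopen_decomp [CompactSpace S] (hP : IsClosedSubbase P) {U : Set S} (hU : IsClopen U) :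
    ∃ (n : ℕ) (Q : ℕ → Set S), (∀ i, Conv P (Q i)) ∧ ∀ s, s ∈ U ↔ ∃ i < n, s ∈ Q i := by
  classical
  obtain ⟨𝓕, h𝓕, hC⟩ := hP.2 U hU.isClosed
  have hcomp : IsCompact Uᶜ := hU.isOpen.isClosed_compl.isCompact
  have hcov : Uᶜ ⊆ ⋃ F ∈ 𝓕, (⋃₀ F)ᶜ := by
    intro s hs
    rw [hC] at hs
    simpa [mem_iInter] using hs
  obtain ⟨𝓖, h𝓖, h𝓖fin, hcov'⟩ := hcomp.elim_finite_subcover_image
    (c := fun F : Set (Set S) => (⋃₀ F)ᶜ) (fun F hF => by
      rw [isOpen_compl_iff, sUnion_eq_biUnion]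
      exact (h𝓕 F hF).1.isClosed_biUnion fun A hA => hP.1 A ((h𝓕 F hF).2 hA)) hcov
  have h𝒜 : (⋃₀ 𝓖).Finite := h𝓖fin.sUnion fun F hF => (h𝓕 F (h𝓖 hF)).1
  have h𝒜P : ⋃₀ 𝓖 ⊆ P := sUnion_subset fun F hF => (h𝓕 F (h𝓖 hF)).2
  have hT : {τ : Set (Set S) | τ ⊆ ⋃₀ 𝓖 ∧ ⋂₀ τ ⊆ U}.Finite :=
    h𝒜.finite_subsets.subset fun τ hτ => hτ.1
  set l := hT.toFinset.toList with hl
  have hmem : ∀ τ, τ ∈ l ↔ τ ⊆ ⋃₀ 𝓖 ∧ ⋂₀ τ ⊆ U := by
    intro τ
    simp [hl]
  refine ⟨l.length, fun i => ⋂₀ (l.getD i ∅), fun i => ⟨_, ?_, rfl⟩, fun s => ⟨fun hs => ?_, ?_⟩⟩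
  · by_cases hi : i < l.length
    · rw [List.getD_eq_getElem _ _ hi]
      exact ((hmem _).1 (List.getElem_mem hi)).1.trans h𝒜P
    · rw [List.getD_eq_default _ _ (not_lt.1 hi)]
      exact empty_subset _
  · have hτ : {A | A ∈ ⋃₀ 𝓖 ∧ s ∈ A} ∈ l := by
      refine (hmem _).2 ⟨fun A hA => hA.1, fun t ht => ?_⟩
      by_contra htU
      obtain ⟨F, hF, htF⟩ := mem_iUnion₂.1 (hcov' htU)
      have hsF : s ∈ ⋃₀ F := by
        have := hs
        rw [hC] at this
        exact mem_iInter₂.1 this F (h𝓖 hF)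
      obtain ⟨A, hAF, hsA⟩ := hsF
      exact htF ⟨A, hAF, ht A ⟨⟨F, hF, hAF⟩, hsA⟩⟩
    obtain ⟨i, hi, hie⟩ := List.getElem_of_mem hτ
    refine ⟨i, hi, ?_⟩
    beta_reduce
    rw [List.getD_eq_getElem _ _ hi, hie]
    exact fun A hA => hA.2
  · rintro ⟨i, hi, hs⟩
    beta_reduce at hs
    rw [List.getD_eq_getElem _ _ hi] at hs
    exact ((hmem _).1 (List.getElem_mem hi)).2 hs

/-- The counting step: patterns of bounded type do not exhaust all subsets of a large grid. -/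
theorem exists_pattern (k n N : ℕ)
    (Φ : ((Fin k × Fin (k * (k * n + 1) * N + 1) × Fin n → Prop) ×
      (Fin k × Fin (k * n + 1) × Fin N → Prop)) →
      (Fin (k * (k * n + 1) * N + 1) × Fin (k * n + 1) → Prop)) :
    ∃ τ, ∀ AB, Φ AB ≠ τ := by
  classical
  by_contra h
  push Not at h
  have hle := Fintype.card_le_of_surjective Φ h
  simp only [Fintype.card_prod, Fintype.card_fun, Fintype.card_prop, Fintype.card_fin] at hle
  rw [← pow_add, Nat.pow_le_pow_iff_right (by norm_num)] at hle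
  nlinarith

/-- The combinatorial core. -/
theorem no_clopen_system (hS : IsSupercompact S) {X : Type} [Uncountable X]
    (U : X → Set S) (V : ℕ → Set S) (W : Set (X × ℕ) → Set S)
    (hU : ∀ x, IsClopen (U x)) (hV : ∀ y, IsClopen (V y)) (hW : ∀ z, IsClopen (W z))
    (h : ∀ x y z, (U x ∩ V y ∩ W z).Nonempty ↔ (x, y) ∈ z) : False := by
  classical
  obtain ⟨P, hP, hB⟩ := hS
  have := compactSpace_of_binary hP hB
  choose nU QU hQU hU' using fun x => clopen_decomp hP (hU x)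
  choose nV QV hQV hV' using fun y => clopen_decomp hP (hV y)
  choose nW QW hQW hW' using fun z => clopen_decomp hP (hW z)
  -- the ternary relation is determined by pairwise intersections
  have key : ∀ x y z, (x, y) ∈ z ↔ ∃ i < nU x, ∃ j < nV y, ∃ l < nW z,
      (QU x i ∩ QV y j).Nonempty ∧ (QU x i ∩ QW z l).Nonempty ∧ (QV y j ∩ QW z l).Nonempty := by
    intro x y z
    rw [← h]
    constructor
    · rintro ⟨s, ⟨hs₁, hs₂⟩, hs₃⟩
      obtain ⟨i, hi, hsi⟩ := (hU' x s).1 hs₁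
      obtain ⟨j, hj, hsj⟩ := (hV' y s).1 hs₂
      obtain ⟨l, hl, hsl⟩ := (hW' z s).1 hs₃
      exact ⟨i, hi, j, hj, l, hl, ⟨s, hsi, hsj⟩, ⟨s, hsi, hsl⟩, ⟨s, hsj, hsl⟩⟩
    · rintro ⟨i, hi, j, hj, l, hl, h₁, h₂, h₃⟩
      obtain ⟨s, ⟨hs₁, hs₂⟩, hs₃⟩ := helly_three hB (hQU x i) (hQV y j) (hQW z l) h₁ h₂ h₃
      exact ⟨s, ⟨(hU' x s).2 ⟨i, hi, hs₁⟩, (hV' y s).2 ⟨j, hj, hs₂⟩⟩, (hW' z s).2 ⟨l, hl, hs₃⟩⟩
  -- infinitely many `x` share the same number `n`
  obtain ⟨n, hn⟩ : ∃ n, {x | nU x = n}.Infinite := by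
    by_contra hfin
    push Not at hfin
    have : (univ : Set X).Countable := by
      have hun : (univ : Set X) = ⋃ n, {x | nU x = n} := by
        ext x
        simp
      rw [hun]
      exact countable_iUnion fun n => (hfin n).countable
    exact not_countable_univ this
  let g : ℕ × ℕ → X := fun p => (hn.natEmbedding _ (Nat.pair p.1 p.2) : X)
  have hg : Function.Injective g := by
    intro p q hpq
    have := (hn.natEmbedding _).injective (Subtype.ext hpq)
    exact Prod.ext (Nat.pair_eq_pair.1 this).1 (Nat.pair_eq_pair.1 this).2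
  have hgn : ∀ p, nU (g p) = n := fun p => (hn.natEmbedding _ (Nat.pair p.1 p.2)).2
  let N : ℕ → ℕ := fun k => ∑ j ∈ Finset.range (k * n + 1), nV j
  have hN : ∀ k j, j < k * n + 1 → nV j ≤ N k := fun k j hj =>
    Finset.single_le_sum (f := nV) (fun _ _ => Nat.zero_le _) (Finset.mem_range.2 hj)
  choose τ hτ using fun k => exists_pattern k n (N k) (fun AB p =>
    ∃ (l : Fin k) (i : Fin n) (j : Fin (N k)), (j : ℕ) < nV p.2 ∧
      (QU (g (k, p.1)) i ∩ QV p.2 j).Nonempty ∧ AB.1 (l, p.1, i) ∧ AB.2 (l, p.2, j))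
  let z : Set (X × ℕ) := {q | ∃ (k : ℕ) (p : Fin (k * (k * n + 1) * N k + 1) × Fin (k * n + 1)),
    q = (g (k, p.1), (p.2 : ℕ)) ∧ τ k p}
  have hz : ∀ (k : ℕ) (p : Fin (k * (k * n + 1) * N k + 1) × Fin (k * n + 1)),
      (g (k, p.1), (p.2 : ℕ)) ∈ z ↔ τ k p := by
    intro k p
    refine ⟨?_, fun hp => ⟨k, p, rfl, hp⟩⟩
    rintro ⟨k', p', he, hp'⟩
    have h₁ := hg (congrArg Prod.fst he)
    have h₂ : (p.2 : ℕ) = p'.2 := congrArg Prod.snd he
    obtain rfl : k = k' := congrArg Prod.fst h₁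
    have h₃ : (p.1 : ℕ) = p'.1 := congrArg Prod.snd h₁
    have : p = p' := Prod.ext (Fin.ext h₃) (Fin.ext h₂)
    exact this ▸ hp'
  refine hτ (nW z) (fun q => (QU (g (nW z, q.2.1)) q.2.2 ∩ QW z q.1).Nonempty,
    fun q => (QV q.2.1 q.2.2 ∩ QW z q.1).Nonempty) ?_
  funext p
  rw [← propext (hz (nW z) p), propext (key _ _ _)]
  refine propext ⟨?_, ?_⟩
  · rintro ⟨l, i, j, hj, h₁, h₂, h₃⟩
    exact ⟨i, by rw [hgn]; exact i.2, j, hj, l, l.2, h₁, h₂, h₃⟩
  · rintro ⟨i, hi, j, hj, l, hl, h₁, h₂, h₃⟩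
    exact ⟨⟨l, hl⟩, ⟨i, by rwa [hgn] at hi⟩, ⟨j, hj.trans_le (hN _ _ p.2.2)⟩, hj, h₁, h₂, h₃⟩

end supercompact

section example_space

/-- A copy of `α` with the discrete topology. -/
structure Disc (α : Type) where
  /-- the underlying point -/
  val : α

instance (α : Type) : TopologicalSpace (Disc α) := ⊥
instance (α : Type) : DiscreteTopology (Disc α) := ⟨rfl⟩

/-- The Hilbert space `ℓ²(Γ)`. -/
abbrev Hilb (Γ : Type) : Type := lp (fun _ : Γ => ℝ) 2

open Classical in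
/-- The one-point compactification of a discrete space, sent to unit vectors and zero. -/
noncomputable def unitVec {α Γ : Type} (j : α → Γ) : OnePoint (Disc α) → Hilb Γ
  | (some a) => lp.single 2 (j a.val) (1 : ℝ)
  | none => 0

theorem continuous_unitVec {α Γ : Type} {j : α → Γ} (hj : Function.Injective j) :
    Continuous fun a => toWeakSpace ℝ (Hilb Γ) (unitVec j a) := by
  classical
  refine WeakBilin.continuous_of_continuous_eval _ fun φ => ?_
  change Continuous fun a => φ (unitVec j a)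
  rw [OnePoint.continuous_iff_from_discrete]
  obtain ⟨v, rfl⟩ := (InnerProductSpace.toDual ℝ (Hilb Γ)).surjective φ
  have hsum : Summable fun i => ‖v i‖ ^ (2 : ENNReal).toReal :=
    (lp.memℓp v).summable (by norm_num)
  have h0 : Tendsto (fun i => v i) cofinite (𝓝 0) := by
    have h1 := hsum.tendsto_cofinite_zero
    have h2 := (Real.continuous_sqrt.tendsto 0).comp h1
    rw [Real.sqrt_zero] at h2
    rw [tendsto_zero_iff_norm_tendsto_zero]
    refine h2.congr fun i => ?_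
    simp [Real.sqrt_sq_eq_abs]
  have hinj : Function.Injective fun a : Disc α => j a.val := by
    rintro ⟨a⟩ ⟨b⟩ hab
    exact congrArg Disc.mk (hj hab)
  have h3 := h0.comp hinj.tendsto_cofinite
  have h4 : (InnerProductSpace.toDual ℝ (Hilb Γ) v) (unitVec j OnePoint.infty) = 0 := by
    change (InnerProductSpace.toDual ℝ (Hilb Γ) v) 0 = 0
    simp
  rw [h4]
  refine h3.congr fun a => ?_
  change v (j a.val) = (InnerProductSpace.toDual ℝ (Hilb Γ) v) (lp.single 2 (j a.val) (1 : ℝ))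
  rw [InnerProductSpace.toDual_apply_apply, lp.inner_single_right]
  simp

theorem unitVec_apply_self {α Γ : Type} {j : α → Γ} (hj : Function.Injective j)
    (a : OnePoint (Disc α)) (b : α) :
    unitVec j a (j b) = 1 ↔ a = (Disc.mk b : Disc α) := by
  classical
  induction a using OnePoint.rec with
  | infty =>
    change (0 : Hilb Γ) (j b) = 1 ↔ _
    simp
  | coe a =>
    change (lp.single 2 (j a.val) (1 : ℝ) : Hilb Γ) (j b) = 1 ↔ _
    rw [lp.single_apply]
    obtain ⟨a⟩ := a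
    by_cases hab : a = b
    · subst hab
      simp
    · rw [Pi.single_eq_of_ne (fun h => hab (hj h).symm)]
      simp [hab]

theorem unitVec_apply_of_notMem {α Γ : Type} {j : α → Γ} (a : OnePoint (Disc α)) {γ : Γ}
    (hγ : ∀ b, j b ≠ γ) : unitVec j a γ = 0 := by
  classical
  induction a using OnePoint.rec with
  | infty =>
    change (0 : Hilb Γ) γ = 0
    simp
  | coe a =>
    change (lp.single 2 (j a.val) (1 : ℝ) : Hilb Γ) γ = 0
    rw [lp.single_apply, Pi.single_eq_of_ne (hγ _).symm]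

theorem onePoint_ext {α : Type} {a a' : OnePoint (Disc α)}
    (h : ∀ b : α, a = (Disc.mk b : Disc α) ↔ a' = (Disc.mk b : Disc α)) : a = a' := by
  induction a using OnePoint.rec with
  | infty =>
    induction a' using OnePoint.rec with
    | infty => rfl
    | coe a' => exact (h a'.val).2 rfl
  | coe a => exact ((h a.val).1 rfl).symm

theorem isClopen_singleton_coe {α : Type} (b : Disc α) :
    IsClopen ({(b : OnePoint (Disc α))} : Set (OnePoint (Disc α))) := by
  refine ⟨isClosed_singleton, ?_⟩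
  have := OnePoint.isOpenEmbedding_coe.isOpenMap {b} (isOpen_discrete _)
  simpa using this

/-- The ambient product of three one-point compactifications. -/
abbrev Amb : Type :=
  OnePoint (Disc ℝ) × OnePoint (Disc ℕ) × OnePoint (Disc (Set (ℝ × ℕ)))

/-- The example. -/
def Kset : Set Amb :=
  {p | ∀ (x : ℝ) (y : ℕ) (z : Set (ℝ × ℕ)), p.1 = (Disc.mk x : Disc ℝ) →
    p.2.1 = (Disc.mk y : Disc ℕ) → p.2.2 = (Disc.mk z : Disc (Set (ℝ × ℕ))) → (x, y) ∈ z}

theorem isClopen_fst (x : ℝ) : IsClopen {p : Amb | p.1 = (Disc.mk x : Disc ℝ)} :=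
  (isClopen_singleton_coe _).preimage continuous_fst

theorem isClopen_snd (y : ℕ) : IsClopen {p : Amb | p.2.1 = (Disc.mk y : Disc ℕ)} :=
  (isClopen_singleton_coe _).preimage (continuous_fst.comp continuous_snd)

theorem isClopen_thd (z : Set (ℝ × ℕ)) :
    IsClopen {p : Amb | p.2.2 = (Disc.mk z : Disc (Set (ℝ × ℕ)))} :=
  (isClopen_singleton_coe _).preimage (continuous_snd.comp continuous_snd)

theorem isClosed_Kset : IsClosed Kset := by
  have : Kset = ⋂ (x : ℝ) (y : ℕ) (z : Set (ℝ × ℕ)) (_ : (x, y) ∉ z),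
      ({p : Amb | p.1 = (Disc.mk x : Disc ℝ)} ∩ {p : Amb | p.2.1 = (Disc.mk y : Disc ℕ)} ∩
        {p : Amb | p.2.2 = (Disc.mk z : Disc (Set (ℝ × ℕ)))})ᶜ := by
    ext p
    simp only [Kset, mem_ofPred_eq, mem_iInter, mem_compl_iff, mem_inter_iff]
    refine forall₃_congr fun x y z => ?_
    tauto
  rw [this]
  refine isClosed_iInter fun x => isClosed_iInter fun y => isClosed_iInter fun z =>
    isClosed_iInter fun _ => ?_
  exact (((isClopen_fst x).inter (isClopen_snd y)).inter (isClopen_thd z)).compl.isClosed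

instance : CompactSpace Kset := isCompact_iff_compactSpace.1 isClosed_Kset.isCompact

/-- The index set of the Hilbert space. -/
abbrev Idx : Type := ℝ ⊕ ℕ ⊕ Set (ℝ × ℕ)

/-- The embedding into the Hilbert space. -/
noncomputable def emb (p : Amb) : Hilb Idx :=
  unitVec Sum.inl p.1 + unitVec (Sum.inr ∘ Sum.inl) p.2.1 + unitVec (Sum.inr ∘ Sum.inr) p.2.2

theorem emb_injective : Function.Injective emb := by
  intro p q hpq
  have h₂ : Function.Injective (Sum.inr ∘ Sum.inl : ℕ → Idx) :=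
    Sum.inr_injective.comp Sum.inl_injective
  have h₃ : Function.Injective (Sum.inr ∘ Sum.inr : Set (ℝ × ℕ) → Idx) :=
    Sum.inr_injective.comp Sum.inr_injective
  have e₁ : ∀ (r : Amb) (x : ℝ), emb r (Sum.inl x) = unitVec (Sum.inl : ℝ → Idx) r.1 (Sum.inl x) := by
    intro r x
    simp only [emb, lp.coeFn_add, Pi.add_apply]
    rw [unitVec_apply_of_notMem r.2.1 (by simp), unitVec_apply_of_notMem r.2.2 (by simp)]
    simp
  have e₂ : ∀ (r : Amb) (y : ℕ), emb r ((Sum.inr ∘ Sum.inl : ℕ → Idx) y) =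
      unitVec (Sum.inr ∘ Sum.inl : ℕ → Idx) r.2.1 ((Sum.inr ∘ Sum.inl : ℕ → Idx) y) := by
    intro r y
    simp only [emb, lp.coeFn_add, Pi.add_apply]
    rw [unitVec_apply_of_notMem r.1 (by simp), unitVec_apply_of_notMem r.2.2 (by simp)]
    simp
  have e₃ : ∀ (r : Amb) (z : Set (ℝ × ℕ)), emb r ((Sum.inr ∘ Sum.inr : Set (ℝ × ℕ) → Idx) z) =
      unitVec (Sum.inr ∘ Sum.inr : Set (ℝ × ℕ) → Idx) r.2.2
        ((Sum.inr ∘ Sum.inr : Set (ℝ × ℕ) → Idx) z) := by
    intro r z
    simp only [emb, lp.coeFn_add, Pi.add_apply]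
    rw [unitVec_apply_of_notMem r.1 (by simp), unitVec_apply_of_notMem r.2.1 (by simp)]
    simp
  refine Prod.ext (onePoint_ext fun x => ?_) (Prod.ext (onePoint_ext fun y => ?_)
    (onePoint_ext fun z => ?_))
  · rw [← unitVec_apply_self (j := (Sum.inl : ℝ → Idx)) Sum.inl_injective,
      ← unitVec_apply_self (j := (Sum.inl : ℝ → Idx)) Sum.inl_injective, ← e₁, ← e₁, hpq]
  · rw [← unitVec_apply_self h₂, ← unitVec_apply_self h₂, ← e₂, ← e₂, hpq]
  · rw [← unitVec_apply_self h₃, ← unitVec_apply_self h₃, ← e₃, ← e₃, hpq]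

theorem continuous_emb : Continuous fun p => toWeakSpace ℝ (Hilb Idx) (emb p) := by
  simp only [emb, map_add]
  refine Continuous.add (Continuous.add ?_ ?_) ?_
  · exact (continuous_unitVec Sum.inl_injective).comp continuous_fst
  · exact (continuous_unitVec (Sum.inr_injective.comp Sum.inl_injective)).comp
      (continuous_fst.comp continuous_snd)
  · exact (continuous_unitVec (Sum.inr_injective.comp Sum.inr_injective)).comp
      (continuous_snd.comp continuous_snd)

theorem isEberleinCompact_Kset : IsEberleinCompact Kset := by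
  let F : Kset → WeakSpace ℝ (Hilb Idx) := fun p => toWeakSpace ℝ (Hilb Idx) (emb p.1)
  have hF : Continuous F := continuous_emb.comp continuous_subtype_val
  have hinj : Function.Injective F := fun p q h =>
    Subtype.ext (emb_injective ((toWeakSpace ℝ (Hilb Idx)).injective h))
  exact ⟨Hilb Idx, inferInstance, inferInstance, inferInstance, range F, isCompact_range hF,
    ⟨(hF.isClosedEmbedding hinj).isEmbedding.toHomeomorph⟩⟩

theorem not_isSuperadic_Kset : ¬ IsSuperadic.{u} Kset := by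
  rintro ⟨S, _, -, hS, f, hf, hsurj⟩
  have hf' : Continuous fun s => (f s : Amb) := continuous_subtype_val.comp hf
  refine no_clopen_system hS (X := ℝ) _ _ _ (fun x => (isClopen_fst x).preimage hf')
    (fun y => (isClopen_snd y).preimage hf') (fun z => (isClopen_thd z).preimage hf') ?_
  intro x y z
  constructor
  · rintro ⟨s, ⟨h₁, h₂⟩, h₃⟩
    exact (f s).2 x y z h₁ h₂ h₃
  · intro hxy
    obtain ⟨s, hs⟩ := hsurj ⟨((Disc.mk x : Disc ℝ), (Disc.mk y : Disc ℕ),
      (Disc.mk z : Disc (Set (ℝ × ℕ)))), by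
        intro x' y' z' h₁ h₂ h₃
        have e₁ : x = x' := by simpa using h₁
        have e₂ : y = y' := by simpa using h₂
        have e₃ : z = z' := by simpa using h₃
        subst e₁ e₂ e₃
        exact hxy⟩
    refine ⟨s, ⟨?_, ?_⟩, ?_⟩ <;> simp [hs]

theorem nonempty_Kset : Nonempty Kset :=
  ⟨⟨(OnePoint.infty, OnePoint.infty, OnePoint.infty), by
    intro x y z h₁ _ _
    exact absurd h₁ (OnePoint.infty_ne_coe _)⟩⟩

end example_space

/-- There is a nonempty Eberlein compact space that is not a continuous image of any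
supercompact Hausdorff space.  (`Nonempty K` excludes the empty space, which `IsBinary`, applied
to the empty subfamily, does not count as supercompact; for nonempty spaces the empty subfamily
imposes no condition.) -/
theorem result : ∃ (K : Type) (_ : TopologicalSpace K),
    Nonempty K ∧ CompactSpace K ∧ T2Space K ∧ IsEberleinCompact K ∧ ¬ IsSuperadic.{u} K :=
  ⟨Kset, inferInstance, nonempty_Kset, inferInstance, inferInstance, isEberleinCompact_Kset,
    not_isSuperadic_Kset⟩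

end Pool.Agent.Results.MP_0256c3_gt.NotSuperadic
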